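import Pool.Agent.MP_66cee2_co.T3.Fold

/-
The fold step on a thick cap in dimension three and on a thick arc.
-/

namespace Pool.Agent.MP_66cee2_co.T3

open Set Metric Module Filter Topology Pool.Agent.MP_66cee2_co.X Pool.Agent.MP_66cee2_co.D
open Pool.Agent.MP_66cee2_co.TR Pool.Agent.MP_66cee2_co.Q
open scoped RealInnerProductSpace

theorem cap (h1 : SLeb) (h2 : SRel) {n c : ℕ} {O : (Ix n → ℝ) → Set (E 3)} {B : Set (E 3)}
    {W : Submodule ℝ (Ix n → ℝ)} (hO : Fam O) (hB : IsOpen B) (hL : Lab O B W) (hS : Su c W)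
    (m e : E 3) (he : ‖e‖ = 1) (ρ η : ℝ) (ρ0 : 0 < ρ) (ρ1 : 24 / 25 ≤ ρ ^ 2) (η0 : 0 < η)
    (hin : ∀ (N : E 3) (κ : ℝ), ‖N‖ = 1 → 20 / 29 ≤ ⟪N, e⟫ → ρ ≤ κ → κ ≤ ρ + η → m + κ • N ∈ B)
    {ε : ℝ} (hε : 0 < ε) :
    ∃ (W' : Submodule ℝ (Ix n → ℝ)) (a b : E 3), a ≠ b ∧ ‖b - a‖ < ε ∧ Su (c + 3) W' ∧
      Lab O (B ∩ (Lune a b ∪ Lune b a)) W' ∧ ∀ x, x = a ∨ x = b →
        ρ ≤ ‖x - m‖ ∧ ‖x - m‖ ≤ ρ + η ∧ 20 / 29 * ρ ≤ ⟪x - m, e⟫ := by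
  obtain ⟨F, hF⟩ : ∃ F : Submodule ℝ (E 3), F = (ℝ ∙ e)ᗮ := ⟨_, rfl⟩
  have FM : ∀ x : F, ⟪(x : E 3), e⟫ = 0 := fun x => by
    have h : (x : E 3) ∈ (ℝ ∙ e)ᗮ := hF ▸ x.2
    exact Submodule.mem_orthogonal_singleton_iff_inner_left.1 h
  have Fd : 2 ≤ finrank ℝ F := by
    have e0 : e ≠ 0 := by
      rintro rfl
      simp at he
    have f1 := Submodule.finrank_add_finrank_orthogonal (ℝ ∙ e)
    rw [finrank_span_singleton e0, finrank_euclideanSpace_fin] at f1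
    rw [hF]
    omega
  have ee : ⟪e, e⟫ = 1 := by rw [real_inner_self_eq_norm_sq, he]; norm_num
  let σ : F × ℝ → ℝ := fun p => √(1 - (21 / 29) ^ 2 * ‖p.1‖ ^ 2)
  let ω : F × ℝ → E 3 := fun p => (21 / 29 : ℝ) • (p.1 : E 3) + σ p • e
  let φ : F × ℝ → E 3 := fun p => m + (ρ + η * p.2) • ω p
  have φc : Continuous φ := by fun_prop
  have ωω : ∀ p q : F × ℝ, ⟪ω p, ω q⟫ = (21 / 29) ^ 2 * ⟪p.1, q.1⟫ + σ p * σ q := fun p q => by
    have a1 := FM p.1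
    have a2 : ⟪e, (q.1 : E 3)⟫ = 0 := by rw [real_inner_comm]; exact FM q.1
    simp only [ω, inner_add_left, inner_add_right, real_inner_smul_left, real_inner_smul_right,
      a1, a2, ee, Submodule.coe_inner]
    ring
  have σ2 : ∀ p ∈ Cyl F, σ p ^ 2 = 1 - (21 / 29) ^ 2 * ‖p.1‖ ^ 2 := fun p hp =>
    Real.sq_sqrt (by nlinarith [hp.1, norm_nonneg p.1])
  have σ0 : ∀ p ∈ Cyl F, 20 / 29 ≤ σ p := fun p hp =>
    Real.le_sqrt_of_sq_le (by nlinarith [hp.1, norm_nonneg p.1])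
  have ωn : ∀ p ∈ Cyl F, ‖ω p‖ = 1 := fun p hp => by
    have h3 := ωω p p
    rw [real_inner_self_eq_norm_sq, real_inner_self_eq_norm_sq] at h3
    have h4 := σ2 p hp
    have h5 : ‖ω p‖ ^ 2 = 1 := by nlinarith
    nlinarith [norm_nonneg (ω p)]
  have ωe : ∀ p : F × ℝ, ⟪ω p, e⟫ = σ p := fun p => by
    simp only [ω, inner_add_left, real_inner_smul_left, FM p.1, ee]
    ring
  have κ1 : ∀ p ∈ Cyl F, ρ ≤ ρ + η * p.2 ∧ ρ + η * p.2 ≤ ρ + η := fun p hp =>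
    ⟨by nlinarith [hp.2.1], by nlinarith [hp.2.2]⟩
  have φn : ∀ p ∈ Cyl F, ‖φ p - m‖ = ρ + η * p.2 := fun p hp => by
    simp only [φ]
    rw [add_sub_cancel_left, norm_smul, ωn p hp, Real.norm_eq_abs,
      abs_of_pos (by linarith [(κ1 p hp).1]), mul_one]
  obtain ⟨W', a, ha, b, hb, ab, k1, k2, k3⟩ := foldG h1 h2 hO hB hL hS F 2 Fd φ φc
    (fun p hp => hin _ _ (ωn p hp) (ωe p ▸ σ0 p hp) (κ1 p hp).1 (κ1 p hp).2)
    (fun p hp q hq np nq hi => by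
      have h4 := norm_sub_sq_real (φ p - m) (φ q - m)
      rw [sub_sub_sub_cancel_right, φn p hp, φn q hq] at h4
      have h5 : ⟪φ p - m, φ q - m⟫ = (ρ + η * p.2) * (ρ + η * q.2) * ⟪ω p, ω q⟫ := by
        simp only [φ, add_sub_cancel_left, real_inner_smul_left, real_inner_smul_right]
        ring
      have s1 : σ p = 20 / 29 := by
        have := σ2 p hp
        rw [np] at this
        nlinarith [σ0 p hp]
      have s2 : σ q = 20 / 29 := by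
        have := σ2 q hq
        rw [nq] at this
        nlinarith [σ0 q hq]
      have h6 : ⟪ω p, ω q⟫ ≤ 400 / 841 := by
        rw [ωω, s1, s2]
        nlinarith
      obtain ⟨x, hx⟩ : ∃ x, x = ρ + η * p.2 := ⟨_, rfl⟩
      obtain ⟨y, hy⟩ : ∃ y, y = ρ + η * q.2 := ⟨_, rfl⟩
      have a1 : ρ ≤ x := hx ▸ (κ1 p hp).1
      have a2 : ρ ≤ y := hy ▸ (κ1 q hq).1
      rw [← hx, ← hy] at h4 h5
      have a3 : ρ ^ 2 ≤ x * y := by nlinarith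
      have a4 : x * y * ⟪ω p, ω q⟫ ≤ x * y * (400 / 841) :=
        mul_le_mul_of_nonneg_left h6 (by nlinarith)
      have a5 : 1 < ‖φ p - φ q‖ ^ 2 := by nlinarith [sq_nonneg (x - y)]
      nlinarith [norm_nonneg (φ p - φ q)])
    (fun p hp q hq p0 q1 h => by
      have b1 := φn p hp
      have b2 := φn q hq
      rw [h, p0] at b1
      rw [q1, b1] at b2
      linarith) hε
  have key : ∀ x ∈ φ '' Cyl F, ρ ≤ ‖x - m‖ ∧ ‖x - m‖ ≤ ρ + η ∧ 20 / 29 * ρ ≤ ⟪x - m, e⟫ := by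
    rintro _ ⟨p, hp, rfl⟩
    refine ⟨φn p hp ▸ (κ1 p hp).1, φn p hp ▸ (κ1 p hp).2, ?_⟩
    simp only [φ, add_sub_cancel_left, real_inner_smul_left, ωe]
    nlinarith [σ0 p hp, (κ1 p hp).1]
  refine ⟨W', a, b, ab, k1, k2, k3, ?_⟩
  rintro x (rfl | rfl)
  · exact key _ ha
  · exact key _ hb

theorem nrm2 {d : ℕ} {g g' : E d} (hg : ‖g‖ = 1) (hg' : ‖g'‖ = 1) (h0 : ⟪g, g'⟫ = 0)
    (x y : ℝ) : ‖x • g + y • g'‖ ^ 2 = x ^ 2 + y ^ 2 := by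
  rw [norm_add_sq_real, real_inner_smul_left, real_inner_smul_right, h0, norm_smul, norm_smul,
    hg, hg', Real.norm_eq_abs, Real.norm_eq_abs]
  simp

theorem dif {d : ℕ} {g g' : E d} (hg : ‖g‖ = 1) (hg' : ‖g'‖ = 1) (h0 : ⟪g, g'⟫ = 0) (o : E d)
    (x y x' y' : ℝ) : ‖(o + (x • g + y • g')) - (o + (x' • g + y' • g'))‖ ^ 2 =
      (x - x') ^ 2 + (y - y') ^ 2 := by
  rw [← nrm2 hg hg' h0]
  congr 2
  simp only [sub_smul]
  abel

theorem arc (h1 : SLeb) (h2 : SRel) {d n c : ℕ} {O : (Ix n → ℝ) → Set (E d)} {B : Set (E d)}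
    {W : Submodule ℝ (Ix n → ℝ)} (hO : Fam O) (hB : IsOpen B) (hL : Lab O B W) (hS : Su c W)
    (o g g' : E d) (hg : ‖g‖ = 1) (hg' : ‖g'‖ = 1) (h0 : ⟪g, g'⟫ = 0) (r t₁ t₂ : ℝ)
    (r0 : 0 < r) (r1 : r < 1) (ht : t₁ < t₂)
    (hch : (1 + t₁ ^ 2) * (1 + t₂ ^ 2) < 4 * r ^ 2 * (t₂ - t₁) ^ 2)
    (hin : ∀ t ∈ Icc t₁ t₂,
      o + ((r * ((1 - t ^ 2) / (1 + t ^ 2))) • g + (r * (2 * t / (1 + t ^ 2))) • g') ∈ B) :
    ∃ (W' : Submodule ℝ (Ix n → ℝ)) (a₁ a₂ b₁ b₂ : ℝ), (a₁ ≠ b₁ ∨ a₂ ≠ b₂) ∧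
      (b₁ - a₁) ^ 2 + (b₂ - a₂) ^ 2 < 1 / 100 ∧ r ^ 2 ≤ a₁ ^ 2 + a₂ ^ 2 ∧
      a₁ ^ 2 + a₂ ^ 2 ≤ r ^ 2 + 1 / 20 ∧ Su (c + 2) W' ∧
      Lab O (B ∩ (Lune (o + (a₁ • g + a₂ • g')) (o + (b₁ • g + b₂ • g')) ∪
        Lune (o + (b₁ • g + b₂ • g')) (o + (a₁ • g + a₂ • g')))) W' := by
  let X : ℝ → ℝ := fun t => (1 - t ^ 2) / (1 + t ^ 2)
  let Y : ℝ → ℝ := fun t => 2 * t / (1 + t ^ 2)
  have p0 : ∀ t : ℝ, (1 + t ^ 2) ≠ 0 := fun t => by positivity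
  have Xc : Continuous X := Continuous.div (by fun_prop) (by fun_prop) p0
  have Yc : Continuous Y := Continuous.div (by fun_prop) (by fun_prop) p0
  have XY : ∀ t, X t ^ 2 + Y t ^ 2 = 1 := fun t => by
    have := p0 t
    simp only [X, Y]
    field_simp
    ring
  let ψ : ℝ × ℝ → E d := fun q => o + (((r + q.1) * X q.2) • g + ((r + q.1) * Y q.2) • g')
  have ψc : Continuous ψ := by fun_prop
  have ev : ∀ᶠ u in 𝓝 (0 : ℝ), ∀ t ∈ Icc t₁ t₂, ψ (u, t) ∈ B := by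
    refine isCompact_Icc.eventually_forall_of_forall_eventually fun t ht => ?_
    refine ψc.continuousAt.eventually (hB.mem_nhds ?_)
    simpa [ψ] using hin t ht
  obtain ⟨δ, δ0, hδ⟩ := Metric.eventually_nhds_iff.1 ev
  obtain ⟨η, η0, η1, η2⟩ : ∃ η : ℝ, 0 < η ∧ η < δ ∧ η ≤ 1 / 50 :=
    ⟨min (δ / 2) (1 / 50), lt_min (by linarith) (by norm_num),
      (min_le_left _ _).trans_lt (by linarith), min_le_right _ _⟩
  let τ : ℝ → ℝ := fun x => (t₁ + t₂) / 2 + x * ((t₂ - t₁) / 2)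
  let φ : ℝ × ℝ → E d := fun p => ψ (η * p.2, τ p.1)
  have φc : Continuous φ := by fun_prop
  have sq : ∀ p : ℝ × ℝ, ((r + η * p.2) * X (τ p.1)) ^ 2 + ((r + η * p.2) * Y (τ p.1)) ^ 2 =
      (r + η * p.2) ^ 2 := fun p => by
    have := XY (τ p.1)
    rw [mul_pow, mul_pow, ← mul_add, this, mul_one]
  have cr : X t₁ * X t₂ + Y t₁ * Y t₂ = 1 - 2 * (t₂ - t₁) ^ 2 / ((1 + t₁ ^ 2) * (1 + t₂ ^ 2)) := by
    have := p0 t₁
    have := p0 t₂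
    simp only [X, Y]
    field_simp
    ring
  have cr2 : 1 < 2 * r ^ 2 * (1 - (X t₁ * X t₂ + Y t₁ * Y t₂)) := by
    rw [cr, sub_sub_cancel, ← mul_div_assoc, lt_div_iff₀ (by positivity)]
    linarith
  have far : ∀ x y : ℝ, r ≤ x → r ≤ y →
      1 < (x * X t₁ - y * X t₂) ^ 2 + (x * Y t₁ - y * Y t₂) ^ 2 := fun x y hx hy => by
    obtain ⟨k, hk⟩ : ∃ k, k = X t₁ * X t₂ + Y t₁ * Y t₂ := ⟨_, rfl⟩
    have e1 : (x * X t₁ - y * X t₂) ^ 2 + (x * Y t₁ - y * Y t₂) ^ 2 =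
        x ^ 2 * (X t₁ ^ 2 + Y t₁ ^ 2) + y ^ 2 * (X t₂ ^ 2 + Y t₂ ^ 2) - 2 * (x * y) * k := by
      rw [hk]; ring
    rw [← hk] at cr2
    rw [e1, XY, XY]
    have a3 : r ^ 2 ≤ x * y := by nlinarith
    have a4 : 0 < 1 - k := by
      by_contra h
      nlinarith [sq_nonneg r]
    nlinarith [sq_nonneg (x - y), mul_le_mul_of_nonneg_right a3 a4.le]
  obtain ⟨W', a, ⟨p, hp, rfl⟩, b, ⟨q, hq, rfl⟩, ab, k1, k2, k3⟩ := foldG h1 h2 hO hB hL hS ℝ 1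
    (by simp) φ φc
    (fun p hp => hδ (y := η * p.2) (by
        rw [Real.dist_eq, sub_zero, abs_of_nonneg (by nlinarith [hp.2.1])]
        nlinarith [hp.2.2]) _ (by
        have := abs_le.1 ((Real.norm_eq_abs _).symm.trans_le hp.1)
        constructor <;> simp only [τ] <;> nlinarith [this.1, this.2]))
    (fun p hp q hq np nq hi => by
      have h4 := dif hg hg' h0 o ((r + η * p.2) * X (τ p.1)) ((r + η * p.2) * Y (τ p.1))
        ((r + η * q.2) * X (τ q.1)) ((r + η * q.2) * Y (τ q.1))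
      have a1 : r ≤ r + η * p.2 := by nlinarith [hp.2.1]
      have a2 : r ≤ r + η * q.2 := by nlinarith [hq.2.1]
      have t1 : τ (-1) = t₁ := by simp only [τ]; ring
      have t2 : τ 1 = t₂ := by simp only [τ]; ring
      have hi' : p.1 * q.1 ≤ 0 := by simpa [mul_comm] using hi
      have h5 : 1 < ‖φ p - φ q‖ ^ 2 := by
        refine lt_of_lt_of_eq ?_ h4.symm
        rcases abs_eq (zero_le_one) |>.1 ((Real.norm_eq_abs _).symm.trans np) with u | u <;>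
          rcases abs_eq (zero_le_one) |>.1 ((Real.norm_eq_abs _).symm.trans nq) with v | v <;>
          rw [u, v] at hi' ⊢
        · norm_num at hi'
        · rw [t1, t2]
          linarith [far _ _ a2 a1]
        · rw [t1, t2]
          exact far _ _ a1 a2
        · norm_num at hi'
      nlinarith [norm_nonneg (φ p - φ q)])
    (fun p hp q hq p0 q1 h => by
      have b1 := nrm2 hg hg' h0 ((r + η * p.2) * X (τ p.1)) ((r + η * p.2) * Y (τ p.1))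
      have b2 := nrm2 hg hg' h0 ((r + η * q.2) * X (τ q.1)) ((r + η * q.2) * Y (τ q.1))
      rw [add_left_cancel h, b2, sq, sq, p0, q1] at b1
      nlinarith) (ε := 1 / 10) (by norm_num)
  refine ⟨W', _, _, _, _, ?_, ?_, ?_, ?_, k2, k3⟩
  · by_contra h
    push Not at h
    exact ab (by simp only [φ, ψ]; rw [h.1, h.2])
  · rw [← dif hg hg' h0 o]
    exact (pow_lt_pow_left₀ k1 (norm_nonneg _) two_ne_zero).trans_eq (by norm_num)
  · rw [sq]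
    nlinarith [hp.2.1, mul_nonneg η0.le hp.2.1]
  · rw [sq]
    have a1 : η * p.2 ≤ 1 / 50 := by nlinarith [hp.2.2]
    have a2 : 0 ≤ η * p.2 := mul_nonneg η0.le hp.2.1
    nlinarith

end Pool.Agent.MP_66cee2_co.T3
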