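import Pool.Agent.MP_66cee2_co.T3.Cap

/-
The circle of common neighbours in dimension three.
-/

namespace Pool.Agent.MP_66cee2_co.T3

open Set Metric Module Filter Topology Pool.Agent.MP_66cee2_co.X Pool.Agent.MP_66cee2_co.D
open Pool.Agent.MP_66cee2_co.TR Pool.Agent.MP_66cee2_co.Q
open scoped RealInnerProductSpace

theorem ul_of {d : ℕ} {a b y : E d} (h : (‖y - a‖ ^ 2 - 1) * (‖y - b‖ ^ 2 - 1) < 0) :
    y ∈ Lune a b ∪ Lune b a := by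
  have a0 := norm_nonneg (y - a)
  have b0 := norm_nonneg (y - b)
  rcases mul_neg_iff.1 h with ⟨u, v⟩ | ⟨u, v⟩
  · exact Or.inl ⟨by nlinarith, by nlinarith⟩
  · exact Or.inr ⟨by nlinarith, by nlinarith⟩

theorem ul_mid {d : ℕ} {a b y : E d}
    (h : (‖y - (1 / 2 : ℝ) • (a + b)‖ ^ 2 + ‖b - a‖ ^ 2 / 4 - 1) ^ 2 <
      ⟪y - (1 / 2 : ℝ) • (a + b), b - a⟫ ^ 2) : y ∈ Lune a b ∪ Lune b a := by
  obtain ⟨w, hw⟩ : ∃ w, w = y - (1 / 2 : ℝ) • (a + b) := ⟨_, rfl⟩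
  obtain ⟨D, hD⟩ : ∃ D, D = b - a := ⟨_, rfl⟩
  have e1 : y - a = w + (1 / 2 : ℝ) • D := by rw [hw, hD]; module
  have e2 : y - b = w - (1 / 2 : ℝ) • D := by rw [hw, hD]; module
  rw [← hw, ← hD] at h
  refine ul_of ?_
  rw [e1, e2, norm_add_sq_real, norm_sub_sq_real, real_inner_smul_right, norm_smul]
  norm_num
  nlinarith

theorem perp2 (u v : E 3) : ∃ w : E 3, ‖w‖ = 1 ∧ ⟪w, u⟫ = 0 ∧ ⟪w, v⟫ = 0 := by
  classical
  have f1 := Submodule.finrank_add_finrank_orthogonal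
    (Submodule.span ℝ (({u, v} : Finset (E 3)) : Set (E 3)))
  have f2 : finrank ℝ (Submodule.span ℝ (({u, v} : Finset (E 3)) : Set (E 3))) ≤ 2 :=
    (finrank_span_finset_le_card _).trans Finset.card_le_two
  rw [finrank_euclideanSpace_fin] at f1
  obtain ⟨w, hw, w0⟩ := Submodule.exists_mem_ne_zero_of_ne_bot
    (p := (Submodule.span ℝ (({u, v} : Finset (E 3)) : Set (E 3)))ᗮ) (fun h => by
      rw [h, finrank_bot] at f1
      omega)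
  have n0 : 0 < ‖w‖ := norm_pos_iff.2 w0
  have k : ∀ x ∈ (({u, v} : Finset (E 3)) : Set (E 3)), ⟪‖w‖⁻¹ • w, x⟫ = 0 := fun x hx => by
    rw [real_inner_smul_left,
      Submodule.inner_left_of_mem_orthogonal (Submodule.subset_span hx) hw, mul_zero]
  exact ⟨‖w‖⁻¹ • w, by rw [norm_smul, norm_inv, norm_norm, inv_mul_cancel₀ n0.ne'],
    k u (by simp), k v (by simp)⟩

theorem four {z g g' D : E 3} (z0 : z ≠ 0) (g0 : g ≠ 0) (g1 : g' ≠ 0) (D0 : D ≠ 0)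
    (h1 : ⟪g, z⟫ = 0) (h2 : ⟪g', z⟫ = 0) (h3 : ⟪g, g'⟫ = 0) (h4 : ⟪z, D⟫ = 0) (h5 : ⟪g, D⟫ = 0)
    (h6 : ⟪g', D⟫ = 0) : False := by
  have k1 := (real_inner_comm _ _).trans h1
  have k2 := (real_inner_comm _ _).trans h2
  have k3 := (real_inner_comm _ _).trans h3
  have k4 := (real_inner_comm _ _).trans h4
  have k5 := (real_inner_comm _ _).trans h5
  have k6 := (real_inner_comm _ _).trans h6
  have li : LinearIndependent ℝ ![z, g, g', D] := by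
    refine linearIndependent_of_ne_zero_of_inner_eq_zero (fun i => ?_) fun i j hij => ?_
    · fin_cases i <;> simpa
    · fin_cases i <;> fin_cases j <;> simp_all
  have := li.fintype_card_le_finrank
  rw [finrank_euclideanSpace_fin] at this
  simp at this

theorem quad3 {a b c t₁ t₂ t₃ : ℝ} (h12 : t₁ < t₂) (h23 : t₂ < t₃)
    (e1 : a * t₁ ^ 2 + b * t₁ + c = 0) (e2 : a * t₂ ^ 2 + b * t₂ + c = 0)
    (e3 : a * t₃ ^ 2 + b * t₃ + c = 0) : a = 0 ∧ b = 0 ∧ c = 0 := by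
  have k1 : a * (t₁ + t₂) + b = 0 :=
    mul_left_cancel₀ (sub_pos.2 h12).ne' (by linear_combination e2 - e1)
  have k2 : a * (t₂ + t₃) + b = 0 :=
    mul_left_cancel₀ (sub_pos.2 h23).ne' (by linear_combination e3 - e2)
  have k3 : a = 0 := mul_left_cancel₀ (sub_pos.2 (h12.trans h23)).ne'
    (by linear_combination k2 - k1)
  have k4 : b = 0 := by rw [k3] at k1; linarith
  refine ⟨k3, k4, ?_⟩
  rw [k3, k4] at e1
  linarith

theorem arcs {r A B C : ℝ} (r0 : 0 < r) (r1 : 7 / 10 < r ^ 2) (h : A ≠ 0 ∨ B ≠ 0 ∨ C ≠ 0) :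
    ∃ t₁ t₂ : ℝ, t₁ < t₂ ∧ (1 + t₁ ^ 2) * (1 + t₂ ^ 2) < 4 * r ^ 2 * (t₂ - t₁) ^ 2 ∧
      ∀ t ∈ Icc t₁ t₂, -(5 / 13) ≤ (1 - t ^ 2) / (1 + t ^ 2) ∧
        A + B * (r * ((1 - t ^ 2) / (1 + t ^ 2))) + C * (r * (2 * t / (1 + t ^ 2))) ≠ 0 := by
  have k0 : ∀ t : ℝ, -(3 / 2) ≤ t → t ≤ 3 / 2 → -(5 / 13) ≤ (1 - t ^ 2) / (1 + t ^ 2) :=
    fun t u v => by
      rw [le_div_iff₀ (by positivity)]
      nlinarith
  have k1 : ∀ t : ℝ,
      A + B * (r * ((1 - t ^ 2) / (1 + t ^ 2))) + C * (r * (2 * t / (1 + t ^ 2))) = 0 →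
      (A - B * r) * t ^ 2 + (2 * C * r) * t + (A + B * r) = 0 := fun t e => by
    have : (1 + t ^ 2) ≠ 0 := by positivity
    field_simp at e
    linear_combination e
  by_contra hno
  push Not at hno
  obtain ⟨u₁, m1, e1⟩ := hno (-(3 / 2)) (-(7 / 20)) (by norm_num) (by nlinarith)
  obtain ⟨u₂, m2, e2⟩ := hno (-(1 / 3)) (1 / 3) (by norm_num) (by nlinarith)
  obtain ⟨u₃, m3, e3⟩ := hno (7 / 20) (3 / 2) (by norm_num) (by nlinarith)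
  obtain ⟨q1, q2, q3⟩ := quad3 (t₁ := u₁) (t₂ := u₂) (t₃ := u₃) (by linarith [m1.2, m2.1])
    (by linarith [m2.2, m3.1]) (k1 _ (e1 (k0 _ m1.1 (by linarith [m1.2]))))
    (k1 _ (e2 (k0 _ (by linarith [m2.1]) (by linarith [m2.2]))))
    (k1 _ (e3 (k0 _ (by linarith [m3.1]) m3.2)))
  have a0 : A = 0 := by linarith
  have b0 : B * r = 0 := by linarith
  have c0 : C * r = 0 := by linarith
  rcases h with h | h | h
  · exact h a0
  · exact h ((mul_eq_zero.1 b0).resolve_right r0.ne')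
  · exact h ((mul_eq_zero.1 c0).resolve_right r0.ne')

theorem circ (m e a b : E 3) (he : ‖e‖ = 1) (ρ η : ℝ) (ρ0 : 999 / 1000 ≤ ρ) (ρ1 : ρ ≤ 1)
    (η1 : η ≤ 1 / 500) (ab : a ≠ b) (hab : ‖b - a‖ < 1 / 100)
    (h : ∀ x, x = a ∨ x = b → ρ ≤ ‖x - m‖ ∧ ‖x - m‖ ≤ ρ + η ∧ 20 / 29 * ρ ≤ ⟪x - m, e⟫) :
    ∃ (o g g' : E 3) (r A₀ B₀ A₁ B₁ C₁ : ℝ), ‖g‖ = 1 ∧ ‖g'‖ = 1 ∧ ⟪g, g'⟫ = 0 ∧ 0 < r ∧
      7 / 10 < r ^ 2 ∧ r ^ 2 < 77 / 100 ∧ 33 / 100 ≤ A₀ ∧ 0 ≤ B₀ ∧ B₀ ≤ 3 / 4 ∧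
      (A₁ ≠ 0 ∨ B₁ ≠ 0 ∨ C₁ ≠ 0) ∧ ∀ x y : ℝ, x ^ 2 + y ^ 2 = r ^ 2 →
        ‖o + (x • g + y • g') - m‖ ^ 2 = ρ ^ 2 ∧
        ⟪o + (x • g + y • g') - m, e⟫ = A₀ + B₀ * x ∧
        (A₁ + B₁ * x + C₁ * y ≠ 0 → o + (x • g + y • g') ∈ Lune a b ∪ Lune b a) := by
  obtain ⟨z, hz⟩ : ∃ z, z = (1 / 2 : ℝ) • (a + b) - m := ⟨_, rfl⟩
  obtain ⟨a1, a2, a3⟩ := h a (Or.inl rfl)
  obtain ⟨b1, b2, b3⟩ := h b (Or.inr rfl)
  have z1 : z = (1 / 2 : ℝ) • ((a - m) + (b - m)) := by rw [hz]; module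
  have z2 : a - m = z - (1 / 2 : ℝ) • (b - a) := by rw [hz]; module
  have ze : 68 / 100 ≤ ⟪z, e⟫ := by
    rw [z1, real_inner_smul_left, inner_add_left]
    linarith
  have zu : ‖z‖ ≤ 1002 / 1000 := by
    have := norm_add_le (a - m) (b - m)
    rw [z1, norm_smul]
    norm_num
    linarith
  have zl : 994 / 1000 ≤ ‖z‖ := by
    have := norm_sub_le z ((1 / 2 : ℝ) • (b - a))
    rw [← z2, norm_smul] at this
    norm_num at this
    linarith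
  obtain ⟨g', n1, n2, n3⟩ := perp2 z e
  obtain ⟨g, m1, m2, m3, m4⟩ : ∃ g : E 3, ‖g‖ = 1 ∧ ⟪g, z⟫ = 0 ∧ ⟪g, g'⟫ = 0 ∧ 0 ≤ ⟪g, e⟫ := by
    obtain ⟨g, m1, m2, m3⟩ := perp2 z g'
    rcases le_total 0 ⟪g, e⟫ with u | u
    · exact ⟨g, m1, m2, m3, u⟩
    · exact ⟨-g, by rwa [norm_neg], by rw [inner_neg_left, m2, neg_zero],
        by rw [inner_neg_left, m3, neg_zero], by rw [inner_neg_left]; linarith⟩
  obtain ⟨Z, hZ⟩ : ∃ Z, Z = ‖z‖ ^ 2 := ⟨_, rfl⟩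
  obtain ⟨H, hH⟩ : ∃ H, H = ‖b - a‖ ^ 2 / 4 := ⟨_, rfl⟩
  have Z1 : 988 / 1000 ≤ Z := by rw [hZ]; nlinarith
  have Z2 : Z ≤ 1005 / 1000 := by rw [hZ]; nlinarith
  have H1 : 0 ≤ H := by rw [hH]; positivity
  have H2 : H ≤ 1 / 10000 := by rw [hH]; nlinarith [norm_nonneg (b - a)]
  have R1 : 998 / 1000 ≤ ρ ^ 2 := by nlinarith
  have R2 : ρ ^ 2 ≤ 1 := by nlinarith
  obtain ⟨l, hl⟩ : ∃ l, l = (Z + ρ ^ 2 - (1 - H)) / (2 * Z) := ⟨_, rfl⟩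
  have l0 : l * (2 * Z) = Z + ρ ^ 2 - (1 - H) := by
    rw [hl]
    exact div_mul_cancel₀ _ (by linarith)
  have l1 : 49 / 100 ≤ l := by
    rw [hl, le_div_iff₀ (by linarith)]
    linarith
  have l2 : l ≤ 51 / 100 := by
    rw [hl, div_le_iff₀ (by linarith)]
    linarith
  have s1 : 7 / 10 < ρ ^ 2 - l ^ 2 * Z := by
    have : l ^ 2 ≤ (51 / 100) ^ 2 := by nlinarith
    nlinarith
  have s2 : ρ ^ 2 - l ^ 2 * Z < 77 / 100 := by
    have : (49 / 100) ^ 2 ≤ l ^ 2 := by nlinarith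
    nlinarith
  have s3 : √(ρ ^ 2 - l ^ 2 * Z) ^ 2 = ρ ^ 2 - l ^ 2 * Z := Real.sq_sqrt (by linarith)
  have n3z : ∀ k x y : ℝ, ‖k • z + (x • g + y • g')‖ ^ 2 = k ^ 2 * Z + (x ^ 2 + y ^ 2) := by
    intro k x y
    rw [norm_add_sq_real, nrm2 m1 n1 m3, real_inner_smul_left, inner_add_right,
      real_inner_smul_right, real_inner_smul_right, real_inner_comm, m2, real_inner_comm, n2,
      norm_smul, mul_pow, Real.norm_eq_abs, sq_abs, hZ]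
    ring
  refine ⟨m + l • z, g, g', √(ρ ^ 2 - l ^ 2 * Z), l * ⟪z, e⟫, ⟪g, e⟫, (l - 1) * ⟪z, b - a⟫,
    ⟪g, b - a⟫, ⟪g', b - a⟫, m1, n1, m3, Real.sqrt_pos.2 (by linarith), by rwa [s3],
    by rwa [s3], by nlinarith, m4, ?_, ?_, fun x y hxy => ?_⟩
  · have k := sq_nonneg ‖e - ((2 / 3 : ℝ) • z + (⟪g, e⟫ • g + (0 : ℝ) • g'))‖
    rw [norm_sub_sq_real, n3z, he, real_inner_comm, inner_add_left, inner_add_left,
      real_inner_smul_left, real_inner_smul_left, real_inner_smul_left] at k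
    nlinarith
  · by_contra hno
    push Not at hno
    refine four (z := z) (g := g) (g' := g') (D := b - a) (norm_pos_iff.1 (by linarith))
      (norm_pos_iff.1 (by linarith)) (norm_pos_iff.1 (by linarith)) (sub_ne_zero.2 ab.symm)
      m2 n2 m3 ((mul_eq_zero.1 hno.1).resolve_left (by linarith)) hno.2.1 hno.2.2
  · rw [s3] at hxy
    have e1 : m + l • z + (x • g + y • g') - m = l • z + (x • g + y • g') := by abel
    have e2 : m + l • z + (x • g + y • g') - (1 / 2 : ℝ) • (a + b) =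
        (l - 1) • z + (x • g + y • g') := by rw [hz]; module
    refine ⟨by rw [e1, n3z, hxy]; ring, ?_, fun hne => ul_mid ?_⟩
    · rw [e1, inner_add_left, inner_add_left, real_inner_smul_left, real_inner_smul_left,
        real_inner_smul_left, n3]
      ring
    · rw [e2, n3z, hxy, ← hH, inner_add_left, inner_add_left, real_inner_smul_left,
        real_inner_smul_left, real_inner_smul_left]
      have e3 : (l - 1) ^ 2 * Z + (ρ ^ 2 - l ^ 2 * Z) + H - 1 = 0 := by linear_combination -l0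
      rw [e3]
      have e4 : (l - 1) * ⟪z, b - a⟫ + (x * ⟪g, b - a⟫ + y * ⟪g', b - a⟫) ≠ 0 := fun e =>
        hne (by linear_combination e)
      simpa using sq_pos_of_ne_zero e4

end Pool.Agent.MP_66cee2_co.T3
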