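import Pool.Agent.MP_66cee2_co.Q.Fold

/-
The fold step for a general chart (the first half of the proof is copied from `Q/Fold`).
-/

namespace Pool.Agent.MP_66cee2_co.T3

open Set Metric Module Filter Topology Pool.Agent.MP_66cee2_co.X Pool.Agent.MP_66cee2_co.D
open Pool.Agent.MP_66cee2_co.TR Pool.Agent.MP_66cee2_co.Q
open scoped RealInnerProductSpace

open Foldx in
theorem foldG (h1 : SLeb) (h2 : SRel) {d n c : ℕ} {O : (Ix n → ℝ) → Set (E d)} {B : Set (E d)}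
    {W : Submodule ℝ (Ix n → ℝ)} (hO : Fam O) (hB : IsOpen B) (hL : Lab O B W) (hS : Su c W)
    (F : Type) [NormedAddCommGroup F] [InnerProductSpace ℝ F] [FiniteDimensional ℝ F]
    (s : ℕ) (Fd : s ≤ finrank ℝ F) (φ : F × ℝ → E d) (φc : Continuous φ)
    (φs : ∀ p ∈ Cyl F, φ p ∈ B)
    (rim : ∀ p ∈ Cyl F, ∀ q ∈ Cyl F, ‖p.1‖ = 1 → ‖q.1‖ = 1 → ⟪p.1, q.1⟫ ≤ 0 → 1 < ‖φ p - φ q‖)
    (ends : ∀ p ∈ Cyl F, ∀ q ∈ Cyl F, p.2 = 0 → q.2 = 1 → φ p ≠ φ q) {ε : ℝ} (hε : 0 < ε) :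
    ∃ (W' : Submodule ℝ (Ix n → ℝ)), ∃ a ∈ φ '' Cyl F, ∃ b ∈ φ '' Cyl F, a ≠ b ∧ ‖b - a‖ < ε ∧
      Su (c + (s + 1)) W' ∧ Lab O (B ∩ (Lune a b ∪ Lune b a)) W' := by
  obtain ⟨L, l1, l2, l3⟩ := loc hO
  obtain ⟨R, hR⟩ : ∃ R : Submodule ℝ (Ix n → ℝ), R = W ⊓ perp W := ⟨_, rfl⟩
  let r : E d → ℕ := fun x => finrank ℝ (L x ⊔ R : Submodule ℝ (Ix n → ℝ)) - finrank ℝ R
  have lab : ∀ p (δ : ℝ), 0 < δ → ∃ v, ∃ y ∈ O v, y ∈ ball p δ ∧ v ∈ L p := by
    intro p δ hδ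
    obtain ⟨ε, e0, -, e2⟩ := l1 p
    obtain ⟨y, hy, hx⟩ := hO.dense.inter_open_nonempty (ball p (min ε δ)) isOpen_ball
      (nonempty_ball.2 (lt_min e0 hδ))
    obtain ⟨v, hv⟩ := mem_iUnion.1 hx
    exact ⟨v, y, hv, ball_subset_ball (min_le_right _ _) hy,
      e2 v y hv (ball_subset_ball (min_le_left _ _) hy)⟩
  have big : ∀ x, finrank ℝ R < finrank ℝ (L x ⊔ R : Submodule ℝ (Ix n → ℝ)) := fun x => by
    obtain ⟨v, y, hy, -, hv⟩ := lab x 1 one_pos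
    refine Submodule.finrank_lt_finrank_of_lt (lt_of_le_of_ne le_sup_right fun e => ?_)
    have h0 : v ∈ R := e ▸ Submodule.mem_sup_left hv
    rw [hR] at h0
    exact (hO.pos v ⟨y, hy⟩).ne' (h0.2 v h0.1)
  have rc : ∀ j, IsClosed {x | j ≤ r x} := fun j => by
    rw [← isOpen_compl_iff, Metric.isOpen_iff]
    intro x hx
    obtain ⟨ε, e0, e1, -⟩ := l1 x
    exact ⟨ε, e0, fun y hy h => hx (le_trans h
      (Nat.sub_le_sub_right (Submodule.finrank_mono (sup_le_sup_right (e1 y hy) R)) _))⟩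
  have cst : ∀ (j : ℕ) (S : Set (E d)), IsPreconnected S → (∀ x ∈ S, r x = j) →
      ∀ a ∈ S, ∀ b ∈ S, L a ⊔ R = L b ⊔ R := by
    intro j S hS hj a ha b hb
    refine hS.induction₂' (fun x y => L x ⊔ R = L y ⊔ R) (fun x hx => ?_)
      (fun _ _ _ _ _ _ => Eq.trans) ha hb
    obtain ⟨ε, e0, e1, -⟩ := l1 x
    filter_upwards [mem_nhdsWithin_of_mem_nhds (ball_mem_nhds x e0), self_mem_nhdsWithin]
      with y hy hyS
    have a1 : _ - _ = j := hj x hx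
    have a2 : _ - _ = j := hj y hyS
    have a3 := big x
    have a4 := big y
    have := Submodule.eq_of_le_of_finrank_le (sup_le_sup_right (e1 y hy) R) (by omega)
    exact ⟨this.symm, this⟩
  have ivt : ∀ (j : ℕ) (S : Set (E d)), IsPreconnected S → (∀ x ∈ S, r x = j) →
      ∀ a ∈ S, ∀ b ∈ S, ∀ z ∈ S, Lab O (B ∩ Lune a b) (W ⊓ perp (L z)) := by
    intro j S hS hj a ha b hb z hz w y hy hl
    have hw := hL w y hy hl.1
    refine ⟨hw, fun v hv => ?_⟩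
    have c1 : Continuous fun p : E d => ‖y - p‖ := by fun_prop
    obtain ⟨p, hp, e⟩ := hS.intermediate_value hb ha c1.continuousOn ⟨hl.2.1.le, hl.2.2.le⟩
    have h3 : v ∈ L p ⊔ R := cst j S hS hj z hz p hp ▸ Submodule.mem_sup_left hv
    obtain ⟨v₁, k1, v₂, k2, rfl⟩ := Submodule.mem_sup.1 h3
    rw [hR] at k2
    have k3 := l2 w y hy p e v₁ k1
    rw [lz_comm] at k3 ⊢
    exact (add_dotProduct v₁ v₂ _).trans ((congrArg₂ _ k3 (k2.2 w hw)).trans (add_zero 0))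
  have dia : ∀ (j : ℕ) (S : Set (E d)), S ⊆ B → IsPreconnected S → (∀ x ∈ S, r x = j) →
      ∀ a ∈ S, ∀ b ∈ S, ‖a - b‖ ≤ 1 := by
    intro j S hSB hS hj a ha b hb
    by_contra hlt
    push Not at hlt
    obtain ⟨δ, d0, d1⟩ := Metric.isOpen_iff.1 hB b (hSB hb)
    obtain ⟨v, y, hy, hb', hv⟩ := lab b (min δ (min 1 (‖a - b‖ - 1)))
      (lt_min d0 (lt_min one_pos (by linarith)))
    have hyB := d1 (ball_subset_ball (min_le_left _ _) hb')
    rw [mem_ball_iff_norm, lt_min_iff, lt_min_iff] at hb'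
    have h1 : 1 < ‖y - a‖ := by
      have := norm_sub_le (y - b) (y - a)
      rw [show y - b - (y - a) = a - b by abel] at this
      linarith [hb'.2.2]
    exact (hO.pos v ⟨y, hy⟩).ne'
      ((ivt j S hS hj a ha b hb b hb v y hy ⟨hyB, hb'.2.1, h1⟩).2 v hv)
  obtain ⟨S, S1, S2, S3, p, hp, q, hq, p0, q1⟩ := h1 F s (fun p => r (φ p)) Fd
    (fun j => (rc j).preimage φc) (fun p => Nat.sub_pos_of_lt (big _))
    (fun j S hS hc hj p hp q hq np nq => by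
      have h3 := dia j (φ '' S) (by
          rintro _ ⟨x, hx, rfl⟩
          exact φs x (hS hx)) (hc.image φ φc.continuousOn)
        (by
          rintro _ ⟨x, hx, rfl⟩
          exact hj x hx) _ ⟨p, hp, rfl⟩ _ ⟨q, hq, rfl⟩
      by_contra hle
      exact absurd (rim p (hS hp) q (hS hq) np nq (not_lt.1 hle)) (not_lt.2 h3))
  have hc : closure S ⊆ Cyl F := closure_minimal S1 (cyl_compact F).isClosed
  have k1 : IsCompact (φ '' closure S) :=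
    ((cyl_compact F).of_isClosed_subset isClosed_closure hc).image φc
  have k2 : ∀ x ∈ φ '' closure S, s + 1 ≤ r x := by
    rintro _ ⟨x, hx, rfl⟩
    exact closure_minimal S3 ((rc (s + 1)).preimage φc) hx
  have k3 : φ '' closure S ⊆ φ '' Cyl F := image_mono hc
  have k4 : φ '' Cyl F ⊆ B := by
    rintro _ ⟨x, hx, rfl⟩
    exact φs x hx
  have mp : φ p ∈ φ '' closure S := ⟨p, subset_closure hp, rfl⟩
  have mq : φ q ∈ φ '' closure S := ⟨q, subset_closure hq, rfl⟩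
  obtain ⟨a, ha, am⟩ : ∃ a ∈ φ '' closure S, ∀ x ∈ φ '' closure S, r a ≤ r x :=
    ⟨Function.argminOn r _ ⟨_, mp⟩, Function.argminOn_mem _ _ _,
      fun x hx => Function.argminOn_le _ _ hx⟩
  obtain ⟨z, hz, za⟩ : ∃ z ∈ φ '' closure S, z ≠ a := by
    by_cases h : φ p = a
    · exact ⟨_, mq, fun e => ends p (S1 hp) q (S1 hq) p0 q1 (h.trans e.symm)⟩
    · exact ⟨_, mp, h⟩
  obtain ⟨K, K1, K2, aK, b, bK, ba⟩ := H31.bump _ ({x | r a + 1 ≤ r x}ᶜ ∩ ball a ε) a z k1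
    (S2.closure.image φ φc.continuousOn) ha hz za ((rc _).isOpen_compl.inter isOpen_ball)
    ⟨by simp, mem_ball_self hε⟩
  have Kj : ∀ x ∈ K, r x = r a := fun x hx => by
    have b1 := am x (K1 hx).1
    have b2 := (K1 hx).2.1
    simp only [mem_compl_iff, mem_ofPred_eq] at b2
    omega
  refine ⟨W ⊓ perp (L a), a, k3 ha, b, k3 (K1 bK).1, ba.symm,
    mem_ball_iff_norm.1 (K1 bK).2.2,
    h2.1 n c (s + 1) W (L a) hS (l3 B W hB hL a (k4 (k3 ha))) ?_, fun v y hy hl => ?_⟩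
  · have b1 : s + 1 ≤ _ - _ := k2 a ha
    have b2 := big a
    rw [← hR]
    omega
  · rcases hl.2 with h | h
    · exact ivt _ K K2 Kj a aK b bK a aK v y hy ⟨hl.1, h⟩
    · exact ivt _ K K2 Kj b bK a aK a aK v y hy ⟨hl.1, h⟩

end Pool.Agent.MP_66cee2_co.T3
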